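import Pool.Agent.helper36.PT.Spec

set_option autoImplicit false

/-! MP_ad8ced_nt, row pt:RKN (helper38): Rankin's trick. -/

namespace Pool.Agent.PT

open Finset Pool.Agent.helper71.AA

theorem RKN : RKN_stmt := by
  obtain ⟨C, hC, hM⟩ := mert_log
  have hl2 : 0 < Real.log 2 := Real.log_pos (by norm_num)
  refine ⟨Real.exp (2 + 2 * C / Real.log 2), Real.one_le_exp (by positivity), ?_⟩
  intro w Z hw hZ Q hQ y hy
  have hZr : (2 : ℝ) ≤ Z := by exact_mod_cast hZ
  have hlZ : Real.log 2 ≤ Real.log Z := Real.log_le_log (by norm_num) hZr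
  have hlZ0 : 0 < Real.log Z := lt_of_lt_of_le hl2 hlZ
  set s : ℝ := 1 / Real.log Z with hs
  have hs0 : 0 < s := by positivity
  have hmem : ∀ l ∈ Q, (3 : ℝ) ≤ l ∧ (l : ℝ) ≤ Z ∧ l.Prime := by
    intro l hl
    have h1 := mem_filter.1 (hQ hl)
    have h2 := mem_Ioc.1 h1.1
    refine ⟨?_, ?_, h1.2⟩
    · have : 3 ≤ l := by omega
      exact_mod_cast this
    · exact_mod_cast h2.2
  -- pointwise Rankin
  have hstep : ∑ H ∈ Q.powerset.filter (fun H => y < pr H), 1 / ph H ≤
      ∑ H ∈ Q.powerset, y ^ (-s) * ∏ l ∈ H, ((l : ℝ) ^ s / ((l : ℝ) - 1)) := by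
    have hterm : ∀ H ∈ Q.powerset, 0 < ph H ∧ 0 < pr H ∧
        ∏ l ∈ H, ((l : ℝ) ^ s / ((l : ℝ) - 1)) = pr H ^ s / ph H := by
      intro H hH
      have hHQ := mem_powerset.1 hH
      refine ⟨?_, ?_, ?_⟩
      · exact prod_pos fun l hl => by linarith [(hmem l (hHQ hl)).1]
      · exact prod_pos fun l hl => by linarith [(hmem l (hHQ hl)).1]
      · rw [prod_div_distrib]
        unfold pr ph
        rw [Real.finsetProd_rpow]
        intro l _
        positivity
    calc ∑ H ∈ Q.powerset.filter (fun H => y < pr H), 1 / ph H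
        ≤ ∑ H ∈ Q.powerset.filter (fun H => y < pr H),
            y ^ (-s) * ∏ l ∈ H, ((l : ℝ) ^ s / ((l : ℝ) - 1)) := by
          refine sum_le_sum fun H hH => ?_
          obtain ⟨h1, h2⟩ := mem_filter.1 hH
          obtain ⟨h3, h4, h5⟩ := hterm H h1
          rw [h5, mul_div_assoc']
          apply div_le_div_of_nonneg_right _ h3.le
          rw [Real.rpow_neg hy.le, inv_mul_eq_div, ← Real.div_rpow h4.le hy.le]
          apply Real.one_le_rpow _ hs0.le
          rw [le_div_iff₀ hy]
          linarith
      _ ≤ _ := by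
          apply sum_le_sum_of_subset_of_nonneg (filter_subset _ _)
          intro H hH _
          obtain ⟨h3, h4, h5⟩ := hterm H hH
          rw [h5]
          positivity
  refine hstep.trans ?_
  rw [← mul_sum, ← Finset.prod_one_add]
  have hprod : ∏ l ∈ Q, (1 + (l : ℝ) ^ s / ((l : ℝ) - 1)) ≤
      (∏ l ∈ Q, (1 + 1 / ((l : ℝ) - 1))) * Real.exp (2 + 2 * C / Real.log 2) := by
    have h1 : ∀ l ∈ Q, (1 + (l : ℝ) ^ s / ((l : ℝ) - 1)) ≤
        (1 + 1 / ((l : ℝ) - 1)) * Real.exp (2 * s * (Real.log l / l)) := by
      intro l hl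
      obtain ⟨h3, hlZ', -⟩ := hmem l hl
      have hl0 : (0 : ℝ) < l := by linarith
      have hl1 : (0 : ℝ) < (l : ℝ) - 1 := by linarith
      have h4 : (1 + (l : ℝ) ^ s / ((l : ℝ) - 1)) =
          (1 + 1 / ((l : ℝ) - 1)) * (1 + ((l : ℝ) ^ s - 1) / l) := by
        field_simp
        ring
      rw [h4]
      apply mul_le_mul_of_nonneg_left _ (by positivity)
      have h5 : (l : ℝ) ^ s - 1 ≤ 2 * (s * Real.log l) := by
        have h6 : (l : ℝ) ^ s = Real.exp (s * Real.log l) := by
          rw [Real.rpow_def_of_pos hl0, mul_comm]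
        have h7 : 0 ≤ s * Real.log l := mul_nonneg hs0.le (Real.log_nonneg (by linarith))
        have h8 : s * Real.log l ≤ 1 := by
          rw [hs, div_mul_eq_mul_div, one_mul, div_le_one hlZ0]
          exact Real.log_le_log hl0 hlZ'
        have h9 := Real.abs_exp_sub_one_le (x := s * Real.log l) (by rw [abs_of_nonneg h7]; exact h8)
        rw [abs_of_nonneg h7] at h9
        rw [h6]
        exact (le_abs_self _).trans h9
      calc 1 + ((l : ℝ) ^ s - 1) / l ≤ 1 + 2 * s * (Real.log l / l) := by
            have : ((l : ℝ) ^ s - 1) / l ≤ 2 * (s * Real.log l) / l :=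
              div_le_div_of_nonneg_right h5 hl0.le
            have e : 2 * (s * Real.log l) / l = 2 * s * (Real.log l / l) := by ring
            linarith
        _ ≤ _ := by linarith [Real.add_one_le_exp (2 * s * (Real.log l / l))]
    calc ∏ l ∈ Q, (1 + (l : ℝ) ^ s / ((l : ℝ) - 1))
        ≤ ∏ l ∈ Q, ((1 + 1 / ((l : ℝ) - 1)) * Real.exp (2 * s * (Real.log l / l))) := by
          apply prod_le_prod
          · intro l hl
            have := (hmem l hl).1
            have h2 : (0 : ℝ) < (l : ℝ) - 1 := by linarith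
            positivity
          · exact h1
      _ = (∏ l ∈ Q, (1 + 1 / ((l : ℝ) - 1))) *
            Real.exp (∑ l ∈ Q, 2 * s * (Real.log l / l)) := by
          rw [prod_mul_distrib, Real.exp_sum]
      _ ≤ _ := by
          apply mul_le_mul_of_nonneg_left
          · apply Real.exp_le_exp.2
            rw [← mul_sum]
            have h2 : ∑ l ∈ Q, Real.log l / l ≤ Real.log Z + C := by
              have h3 := hM Z 1 le_rfl (by linarith)
              rw [Nat.floor_one, Nat.floor_natCast, div_one] at h3
              have h4 : ∑ l ∈ Q, Real.log l / l ≤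
                  ∑ l ∈ (Ioc 1 Z).filter Nat.Prime, Real.log l / l := by
                apply sum_le_sum_of_subset_of_nonneg
                · intro l hl
                  have h5 := mem_filter.1 (hQ hl)
                  have h6 := mem_Ioc.1 h5.1
                  exact mem_filter.2 ⟨mem_Ioc.2 ⟨by omega, h6.2⟩, h5.2⟩
                · intro l _ _
                  positivity
              have h7 := le_abs_self (∑ l ∈ (Ioc 1 Z).filter Nat.Prime, Real.log l / l - Real.log Z)
              linarith
            calc 2 * s * ∑ l ∈ Q, Real.log l / l ≤ 2 * s * (Real.log Z + C) :=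
                  mul_le_mul_of_nonneg_left h2 (by positivity)
              _ = 2 + 2 * C / Real.log Z := by
                  rw [hs]
                  field_simp
              _ ≤ _ := by
                  have : 2 * C / Real.log Z ≤ 2 * C / Real.log 2 :=
                    div_le_div_of_nonneg_left (by positivity) hl2 hlZ
                  linarith
          · apply prod_nonneg
            intro l hl
            have := (hmem l hl).1
            have h2 : (0 : ℝ) < (l : ℝ) - 1 := by linarith
            positivity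
  calc y ^ (-s) * ∏ l ∈ Q, (1 + (l : ℝ) ^ s / ((l : ℝ) - 1))
      ≤ y ^ (-s) * ((∏ l ∈ Q, (1 + 1 / ((l : ℝ) - 1))) * Real.exp (2 + 2 * C / Real.log 2)) :=
        mul_le_mul_of_nonneg_left hprod (by positivity)
    _ = _ := by ring

end Pool.Agent.PT
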